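import Mathlib

/-!
# The non-meager independence number equals `non(meager)`

We prove in ZFC that there is a non-meager independent family of subsets of `ℕ` whose cardinality
is the least cardinality of a non-meager subset of the Cantor space.
-/

set_option autoImplicit false

open Set Filter Topology Cardinal

namespace Pool.Agent.Results.MP_fb02e9_lc.Equality

/-- The Cantor space, with the product topology. -/
abbrev Cantor : Type := ℕ → Bool

/-- A family of infinite subsets of `ℕ` is independent if for all finite disjoint `F, G ⊆ A`, not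
both empty, the set of the natural numbers which lie in all members of `F` and in no member of `G`
is infinite. -/
def IsIndependent (A : Set (Set ℕ)) : Prop :=
  (∀ a ∈ A, a.Infinite) ∧
    ∀ F G : Finset (Set ℕ), (F : Set (Set ℕ)) ⊆ A → (G : Set (Set ℕ)) ⊆ A → Disjoint F G →
      (F.Nonempty ∨ G.Nonempty) → {n : ℕ | (∀ a ∈ F, n ∈ a) ∧ ∀ b ∈ G, n ∉ b}.Infinite

/-- The set of the characteristic functions of the members of `A`. -/
def charSet (A : Set (Set ℕ)) : Set Cantor := {x | {n : ℕ | x n = true} ∈ A}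

/-- A family of subsets of `ℕ` is non-meager if the set of the characteristic functions of its
members is a non-meager subset of the Cantor space. -/
def IsNonMeager (A : Set (Set ℕ)) : Prop := ¬ IsMeagre (charSet A)

/-- `non(meager)`: the least cardinality of a non-meager subset of the Cantor space. -/
noncomputable def nonMeager : Cardinal.{0} :=
  sInf {κ | ∃ X : Set Cantor, ¬ IsMeagre X ∧ #X = κ}

/-- `i(meager)`: the least cardinality of a non-meager independent family. -/
noncomputable def iMeager : Cardinal.{0} :=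
  sInf {κ | ∃ A : Set (Set ℕ), IsIndependent A ∧ IsNonMeager A ∧ #A = κ}

/-! ### Basic facts on category in the Cantor space -/

lemma exists_finset_of_isOpen {V : Set Cantor} (hV : IsOpen V) {y : Cantor} (hy : y ∈ V) :
    ∃ E : Finset ℕ, ∀ x : Cantor, (∀ i ∈ E, x i = y i) → x ∈ V := by
  obtain ⟨I, u, hu, hs⟩ := isOpen_pi_iff.1 hV y hy
  refine ⟨I, fun x hx => hs ?_⟩
  intro i hi
  rw [hx i hi]
  exact (hu i hi).2

lemma isOpen_agree (E : Finset ℕ) (y : Cantor) : IsOpen {x : Cantor | ∀ i ∈ E, x i = y i} := by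
  have : {x : Cantor | ∀ i ∈ E, x i = y i} = (E : Set ℕ).pi (fun i => {y i}) := by
    ext x; simp [Set.mem_pi]
  rw [this]
  exact isOpen_set_pi E.finite_toSet (fun i _ => isOpen_discrete _)

/-- If the finite sets `B k` tend to infinity, then almost every `x` agrees with the pattern `w k`
on `B k` for infinitely many `k` in the infinite set `K`. -/
lemma residual_match (B : ℕ → Finset ℕ) (w : ℕ → Cantor) (K : ℕ → Prop)
    (hB : ∀ (E : Finset ℕ) (m : ℕ), ∃ k, m ≤ k ∧ K k ∧ Disjoint (B k) E) :
    {x : Cantor | ∀ m, ∃ k, m ≤ k ∧ K k ∧ ∀ i ∈ B k, x i = w k i} ∈ residual Cantor := by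
  have h1 : {x : Cantor | ∀ m, ∃ k, m ≤ k ∧ K k ∧ ∀ i ∈ B k, x i = w k i} =
      ⋂ m, ⋃ k, ⋃ (_ : m ≤ k ∧ K k), {x : Cantor | ∀ i ∈ B k, x i = w k i} := by
    ext x
    simp only [mem_ofPred_eq, mem_iInter, mem_iUnion, exists_prop, and_assoc]
  rw [h1, countable_iInter_mem]
  intro m
  refine residual_of_dense_open ?_ ?_
  · exact isOpen_iUnion fun k => isOpen_iUnion fun _ => isOpen_agree _ _
  · rw [dense_iff_inter_open]
    intro U hU ⟨y, hy⟩
    obtain ⟨E, hE⟩ := exists_finset_of_isOpen hU hy
    obtain ⟨k, hk, hK, hd⟩ := hB E m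
    refine ⟨fun i => if i ∈ B k then w k i else y i, hE _ ?_, ?_⟩
    · intro i hi
      have : i ∉ B k := fun h => (Finset.disjoint_left.1 hd h) hi
      simp [this]
    · simp only [mem_iUnion, exists_prop]
      exact ⟨k, ⟨hk, hK⟩, fun i hi => by simp [hi]⟩

lemma isMeagre_singleton (x : Cantor) : IsMeagre ({x} : Set Cantor) := by
  have h := residual_match (fun k => {k}) (fun _ i => !x i) (fun _ => True) (by
    intro E m
    obtain ⟨k, hk⟩ := Infinite.exists_notMem_finset (E ∪ Finset.range m)
    refine ⟨k, ?_, trivial, ?_⟩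
    · by_contra h
      exact hk (Finset.mem_union_right _ (Finset.mem_range.2 (not_le.1 h)))
    · rw [Finset.disjoint_singleton_left]
      exact fun h => hk (Finset.mem_union_left _ h))
  rw [IsMeagre]
  refine mem_of_superset h ?_
  intro y hy hxy
  rw [mem_singleton_iff] at hxy
  subst hxy
  obtain ⟨k, _, _, hk⟩ := hy 0
  have := hk k (by simp)
  simp at this

lemma infinite_of_not_isMeagre {X : Set Cantor} (hX : ¬ IsMeagre X) : X.Infinite := by
  intro hfin
  apply hX
  have : X = ⋃ x ∈ X, ({x} : Set Cantor) := by simp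
  rw [this]
  exact isMeagre_biUnion hfin.countable (fun x _ => isMeagre_singleton x)

/-- A property of almost all points holds for some point of a non-meager set. -/
lemma exists_mem_of_residual {X : Set Cantor} (hX : ¬ IsMeagre X) {R : Set Cantor}
    (hR : R ∈ residual Cantor) : ∃ x ∈ X, x ∈ R := by
  by_contra hcon
  push Not at hcon
  apply hX
  rw [IsMeagre]
  exact mem_of_superset hR (fun x hx h => hcon x h hx)

lemma not_isMeagre_inter {X : Set Cantor} (hX : ¬ IsMeagre X) {R : Set Cantor}
    (hR : R ∈ residual Cantor) : ¬ IsMeagre (X ∩ R) := by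
  intro h
  rw [IsMeagre] at h
  obtain ⟨x, hx, h1, h2⟩ := exists_mem_of_residual hX (inter_mem h hR)
  exact h1 ⟨hx, h2⟩

/-- The step in the construction of a chopped real. -/
lemma step {V : Set Cantor} (hV : IsOpen V) (hd : Dense V) (β : ℕ → ℕ)
    (hβ : ∀ m, {i | β i < m}.Finite) (m : ℕ) :
    ∃ (m' : ℕ) (z : Cantor), m < m' ∧
      ∀ x : Cantor, (∀ i, m ≤ β i → β i < m' → x i = z i) → x ∈ V := by
  classical
  let S : Finset ℕ := (hβ m).toFinset
  have hS : ∀ i, i ∈ S ↔ β i < m := by intro i; simp [S]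
  have key : ∀ T : Finset Cantor, ∃ (z : Cantor) (D : Finset ℕ), (∀ i ∈ D, m ≤ β i) ∧
      ∀ s ∈ T, ∀ x : Cantor, (∀ i ∈ S, x i = s i) → (∀ i ∈ D, x i = z i) → x ∈ V := by
    intro T
    induction T using Finset.induction_on with
    | empty => exact ⟨fun _ => false, ∅, by simp, by simp⟩
    | insert s T _ ih =>
      obtain ⟨z, D, hD, hT⟩ := ih
      have hne : ({x : Cantor | ∀ i ∈ S ∪ D, x i = (fun i => if i ∈ S then s i else z i) i}
          ∩ V).Nonempty := by
        refine hd.inter_open_nonempty _ (isOpen_agree _ _) ⟨_, fun i _ => rfl⟩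
      obtain ⟨y, hy1, hy2⟩ := hne
      obtain ⟨E, hE⟩ := exists_finset_of_isOpen hV hy2
      have hyS : ∀ i ∈ S, y i = s i := by
        intro i hi
        have := hy1 i (Finset.mem_union_left _ hi)
        simpa [hi] using this
      have hyD : ∀ i ∈ D, y i = z i := by
        intro i hi
        have h1 := hy1 i (Finset.mem_union_right _ hi)
        have h2 : i ∉ S := fun h => absurd ((hS i).1 h) (not_lt.2 (hD i hi))
        simpa [h2] using h1
      refine ⟨y, D ∪ (E \ S), ?_, ?_⟩
      · intro i hi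
        rcases Finset.mem_union.1 hi with hi | hi
        · exact hD i hi
        · have := (Finset.mem_sdiff.1 hi).2
          rw [hS] at this
          exact not_lt.1 this
      · intro t ht x hx1 hx2
        rcases Finset.mem_insert.1 ht with rfl | ht
        · refine hE x ?_
          intro i hi
          by_cases hiS : i ∈ S
          · rw [hx1 i hiS, hyS i hiS]
          · exact hx2 i (Finset.mem_union_right _ (Finset.mem_sdiff.2 ⟨hi, hiS⟩))
        · refine hT t ht x hx1 ?_
          intro i hi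
          rw [hx2 i (Finset.mem_union_left _ hi), hyD i hi]
  obtain ⟨z, D, hD, hT⟩ := key
    ((Finset.univ : Finset (S → Bool)).image (fun s i => if h : i ∈ S then s ⟨i, h⟩ else false))
  refine ⟨m + 1 + ∑ i ∈ D, β i, z, by omega, ?_⟩
  intro x hx
  refine hT (fun i => if h : i ∈ S then x i else false) ?_ x ?_ ?_
  · rw [Finset.mem_image]
    exact ⟨fun i => x i.1, Finset.mem_univ _, rfl⟩
  · intro i hi
    simp [hi]
  · intro i hi
    refine hx i (hD i hi) ?_
    have : β i ≤ ∑ i ∈ D, β i := Finset.single_le_sum (fun _ _ => Nat.zero_le _) hi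
    omega

/-- A meager set is avoided by matching a real on infinitely many blocks. -/
lemma exists_chopped {M : Set Cantor} (hM : IsMeagre M) (β : ℕ → ℕ)
    (hβ : ∀ m, {i | β i < m}.Finite) :
    ∃ (j : ℕ → ℕ) (z : Cantor), StrictMono j ∧
      ∀ x : Cantor, (∀ m, ∃ k, m ≤ k ∧ ∀ i, j k ≤ β i → β i < j (k + 1) → x i = z i) → x ∉ M := by
  classical
  rw [IsMeagre, mem_residual_iff] at hM
  obtain ⟨S, hSo, hSd, hSc, hSM⟩ := hM
  obtain ⟨U, hU⟩ := (hSc.insert Set.univ).exists_eq_range ⟨Set.univ, mem_insert _ _⟩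
  have hUo : ∀ n, IsOpen (U n) := by
    intro n
    have : U n ∈ insert Set.univ S := by rw [hU]; exact mem_range_self n
    rcases this with h | h
    · rw [h]; exact isOpen_univ
    · exact hSo _ h
  have hUd : ∀ n, Dense (U n) := by
    intro n
    have : U n ∈ insert Set.univ S := by rw [hU]; exact mem_range_self n
    rcases this with h | h
    · rw [h]; exact dense_univ
    · exact hSd _ h
  let V : ℕ → Set Cantor := fun n => ⋂ i ∈ Finset.range (n + 1), U i
  have hVo : ∀ n, IsOpen (V n) := fun n => isOpen_biInter_finset fun i _ => hUo i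
  have hVd : ∀ n, Dense (V n) := by
    intro n
    induction n with
    | zero => simpa [V] using hUd 0
    | succ n ih =>
      have : V (n + 1) = U (n + 1) ∩ V n := by
        simp only [V]
        rw [Finset.range_add_one, Finset.set_biInter_insert]
      rw [this]
      exact (hUd _).inter_of_isOpen_left ih (hUo _)
  have hVanti : ∀ n k, n ≤ k → V k ⊆ V n := by
    intro n k h x hx
    simp only [V, mem_iInter, Finset.mem_range] at hx ⊢
    exact fun i hi => hx i (by omega)
  have hst : ∀ n m, ∃ (m' : ℕ) (z : Cantor), m < m' ∧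
      ∀ x : Cantor, (∀ i, m ≤ β i → β i < m' → x i = z i) → x ∈ V n :=
    fun n m => step (hVo n) (hVd n) β hβ m
  choose nx zz hnx hzz using hst
  let j : ℕ → ℕ := fun k => Nat.rec 0 (fun k jk => nx k jk) k
  have hj : ∀ k, j (k + 1) = nx k (j k) := fun k => rfl
  have hjm : StrictMono j := strictMono_nat_of_lt_succ fun k => by rw [hj]; exact hnx _ _
  have hex : ∀ i, ∃ k, β i < j (k + 1) := fun i => ⟨β i, by
    have := hjm.id_le (β i + 1)
    simp only [id] at this
    omega⟩
  let z : Cantor := fun i => zz (Nat.find (hex i)) (j (Nat.find (hex i))) i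
  refine ⟨j, z, hjm, ?_⟩
  intro x hx hxM
  have hz : ∀ k i, j k ≤ β i → β i < j (k + 1) → z i = zz k (j k) i := by
    intro k i h1 h2
    have : Nat.find (hex i) = k := by
      rw [Nat.find_eq_iff]
      refine ⟨h2, ?_⟩
      intro l hl h3
      have := hjm.monotone (show l + 1 ≤ k by omega)
      omega
    simp only [z, this]
  have hxU : x ∈ ⋂₀ S := by
    intro s hs
    have : s ∈ insert Set.univ S := mem_insert_of_mem _ hs
    rw [hU] at this
    obtain ⟨n, rfl⟩ := this
    obtain ⟨k, hk, hk2⟩ := hx n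
    have h1 : x ∈ V k := by
      apply hzz k (j k)
      intro i h1 h2
      rw [hk2 i h1 h2]
      exact hz k i h1 h2
    have h2 := hVanti n k hk h1
    simp only [V, mem_iInter, Finset.mem_range] at h2
    exact h2 n (by omega)
  exact hSM hxU hxM

/-! ### A non-meager filter base -/

/-- The set of the `n` such that `x` takes the value `true` between `n` and `g n`. -/
def hitSet (g : ℕ → ℕ) (x : Cantor) : Set ℕ := {n | ∃ m, n < m ∧ m ≤ g n ∧ x m = true}

lemma exists_base {X : Set Cantor} (hX : ¬ IsMeagre X) :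
    ∃ H : Set (Set ℕ), #H ≤ #X ∧
      (∀ F : Finset (Set ℕ), (F : Set (Set ℕ)) ⊆ H → {n | ∀ h ∈ F, n ∈ h}.Infinite) ∧
      ∀ j : ℕ → ℕ, StrictMono j → ∃ h ∈ H, ∀ m, ∃ k, m ≤ k ∧
        ∀ n, j k ≤ n → n < j (k + 1) → n ∉ h := by
  classical
  let R : Set Cantor := {x | ∀ m, ∃ k, m ≤ k ∧ True ∧ ∀ i ∈ ({k} : Finset ℕ), x i = true}
  have hR : R ∈ residual Cantor := residual_match (fun k => {k}) (fun _ _ => true)
    (fun _ => True) (by
    intro E m
    obtain ⟨k, hk⟩ := Infinite.exists_notMem_finset (E ∪ Finset.range m)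
    refine ⟨k, ?_, trivial, ?_⟩
    · by_contra h
      exact hk (Finset.mem_union_right _ (Finset.mem_range.2 (not_le.1 h)))
    · rw [Finset.disjoint_singleton_left]
      exact fun h => hk (Finset.mem_union_left _ h))
  set X' : Set Cantor := X ∩ R with hX'def
  have hX' : ¬ IsMeagre X' := not_isMeagre_inter hX hR
  have hX'le : #X' ≤ #X := mk_le_mk_of_subset inter_subset_left
  have hones : ∀ x ∈ X', ∀ n, ∃ m, n < m ∧ x m = true := by
    intro x hx n
    obtain ⟨k, hk, _, h⟩ := hx.2 (n + 1)
    exact ⟨k, by omega, h k (by simp)⟩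
  by_cases hA : ∃ g : ℕ → ℕ, ∀ F : Finset Cantor, (F : Set Cantor) ⊆ X' →
      {n | ∀ x ∈ F, n ∈ hitSet g x}.Infinite
  · obtain ⟨g, hg⟩ := hA
    refine ⟨hitSet g '' X', mk_image_le.trans hX'le, ?_, ?_⟩
    · intro F hF
      obtain ⟨F', hF', rfl⟩ := Finset.subset_set_image_iff.1 hF
      refine (hg F' hF').mono ?_
      intro n hn h hh
      obtain ⟨x, hx, rfl⟩ := Finset.mem_image.1 hh
      exact hn x hx
    · intro j hj
      have hres := residual_match
        (fun k => Finset.Icc (j k) (∑ n ∈ Finset.range (j (k + 1)), g n))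
        (fun _ _ => false) (fun _ => True) (by
          intro E m
          refine ⟨m + ∑ i ∈ E, i + 1, by omega, trivial, ?_⟩
          rw [Finset.disjoint_left]
          intro a ha haE
          have h1 := (Finset.mem_Icc.1 ha).1
          have h2 := hj.id_le (m + ∑ i ∈ E, i + 1)
          have h3 : a ≤ ∑ i ∈ E, i :=
            Finset.single_le_sum (f := fun i => i) (fun _ _ => Nat.zero_le _) haE
          simp only [id] at h2
          omega)
      obtain ⟨x, hx, hx2⟩ := exists_mem_of_residual hX' hres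
      refine ⟨hitSet g x, mem_image_of_mem _ hx, ?_⟩
      intro m
      obtain ⟨k, hk, _, h⟩ := hx2 m
      refine ⟨k, hk, ?_⟩
      rintro n hn1 hn2 ⟨l, hl1, hl2, hl3⟩
      have h3 : g n ≤ ∑ n ∈ Finset.range (j (k + 1)), g n :=
        Finset.single_le_sum (f := g) (fun _ _ => Nat.zero_le _) (Finset.mem_range.2 hn2)
      have h4 := h l (Finset.mem_Icc.2 ⟨by omega, by omega⟩)
      rw [hl3] at h4
      exact absurd h4 (by simp)
  · push Not at hA
    -- for each finite set of points, a common bound for the next positions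
    have hf : ∀ F : Finset X', ∃ f : ℕ → ℕ, ∀ n, n < f n ∧
        ∀ x ∈ F, ∃ m, n < m ∧ m ≤ f n ∧ x.1 m = true := by
      intro F
      have : ∀ x : X', ∀ n, ∃ m, n < m ∧ x.1 m = true := fun x n => hones x.1 x.2 n
      choose nxt h1 h2 using this
      refine ⟨fun n => n + 1 + ∑ x ∈ F, nxt x n, fun n => ⟨?_, fun x hx => ?_⟩⟩
      · show n < n + 1 + ∑ x ∈ F, nxt x n
        omega
      have h3 : nxt x n ≤ ∑ x ∈ F, nxt x n :=
        Finset.single_le_sum (f := fun x => nxt x n) (fun _ _ => Nat.zero_le _) hx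
      refine ⟨nxt x n, h1 x n, ?_, h2 x n⟩
      show nxt x n ≤ n + 1 + ∑ x ∈ F, nxt x n
      omega
    choose f hf1 using hf
    let a : Finset X' → ℕ → ℕ := fun F k => Nat.rec 0 (fun _ m => f F m) k
    have ha : ∀ F k, a F (k + 1) = f F (a F k) := fun F k => rfl
    have ham : ∀ F, StrictMono (a F) := fun F => strictMono_nat_of_lt_succ fun k => by
      rw [ha]; exact (hf1 F _).1
    let ev : Finset X' → Set ℕ := fun F => {n | ∃ l, Even l ∧ a F l ≤ n ∧ n < a F (l + 1)}
    let hh : Finset X' → Set ℕ := fun F =>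
      if ev F ∈ (hyperfilter ℕ : Ultrafilter ℕ) then ev F else (ev F)ᶜ
    have hhU : ∀ F, hh F ∈ (hyperfilter ℕ : Ultrafilter ℕ) := by
      intro F
      by_cases h : ev F ∈ (hyperfilter ℕ : Ultrafilter ℕ)
      · simp only [hh, h, if_true]
      · simp only [hh, h, if_false]
        exact Ultrafilter.compl_mem_iff_notMem.2 h
    have hinf : Infinite X' := (infinite_of_not_isMeagre hX').to_subtype
    refine ⟨range hh, ?_, ?_, ?_⟩
    · refine (mk_range_le).trans ?_
      rw [mk_finset_of_infinite]
      exact hX'le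
    · intro F hF
      have h1 : (⋂ h ∈ F, h) ∈ (hyperfilter ℕ : Ultrafilter ℕ) := by
        have : (⋂ h ∈ F, h) ∈ ((hyperfilter ℕ : Ultrafilter ℕ) : Filter ℕ) := by
          rw [biInter_finset_mem]
          intro h hh'
          obtain ⟨G, rfl⟩ := hF hh'
          exact hhU G
        exact this
      have h2 : (⋂ h ∈ F, h).Infinite := by
        intro hfin
        exact notMem_hyperfilter_of_finite hfin h1
      refine h2.mono ?_
      intro n hn h hh'
      exact mem_iInter₂.1 hn h hh'
    · intro j hj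
      obtain ⟨F, hFX, hFfin⟩ := hA (fun n => j (n + 1))
      -- transfer to a finite subset of the subtype
      let G : Finset X' := F.subtype (fun x => x ∈ X')
      have hG : ∀ x ∈ F, ∃ y ∈ G, y.1 = x := by
        intro x hx
        exact ⟨⟨x, hFX hx⟩, by simp [G, hx], rfl⟩
      obtain ⟨N, hN⟩ := hFfin.bddAbove
      have hdom : ∀ n, N < n → j (n + 1) < f G n := by
        intro n hn
        by_contra hle
        have hmem : n ∈ {n | ∀ x ∈ F, n ∈ hitSet (fun n => j (n + 1)) x} := by
          intro x hx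
          obtain ⟨y, hy, hyx⟩ := hG x hx
          obtain ⟨m, h1, h2, h3⟩ := (hf1 G n).2 y hy
          rw [hyx] at h3
          refine ⟨m, h1, ?_, h3⟩
          show m ≤ j (n + 1)
          omega
        have := hN hmem
        omega
      have hblock : ∀ l, N < l → a G l ≤ j (a G l) ∧ j (a G l + 1) < a G (l + 1) := by
        intro l hl
        refine ⟨hj.id_le _, ?_⟩
        rw [ha]
        refine hdom _ ?_
        have := (ham G).id_le l
        simp only [id] at this
        omega
      have hev : ∀ l, Even l → ∀ n, a G l ≤ n → n < a G (l + 1) → n ∈ ev G :=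
        fun l hl n h1 h2 => ⟨l, hl, h1, h2⟩
      have hod : ∀ l, ¬ Even l → ∀ n, a G l ≤ n → n < a G (l + 1) → n ∉ ev G := by
        rintro l hl n h1 h2 ⟨l', hl', h3, h4⟩
        have h5 : l < l' + 1 := (ham G).lt_iff_lt.1 (lt_of_le_of_lt h1 h4)
        have h6 : l' < l + 1 := (ham G).lt_iff_lt.1 (lt_of_le_of_lt h3 h2)
        have : l = l' := by omega
        exact hl (this ▸ hl')
      refine ⟨hh G, mem_range_self _, ?_⟩
      intro m
      by_cases h : ev G ∈ (hyperfilter ℕ : Ultrafilter ℕ)
      · have hl : N < 2 * (m + N) + 1 := by omega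
        obtain ⟨hb1, hb2⟩ := hblock _ hl
        refine ⟨a G (2 * (m + N) + 1), ?_, ?_⟩
        · have := (ham G).id_le (2 * (m + N) + 1)
          simp only [id] at this
          omega
        · intro n h1 h2
          simp only [hh, h, if_true]
          refine hod (2 * (m + N) + 1) (by simp) n (by omega) (by omega)
      · have hl : N < 2 * (m + N + 1) := by omega
        obtain ⟨hb1, hb2⟩ := hblock _ hl
        refine ⟨a G (2 * (m + N + 1)), ?_, ?_⟩
        · have := (ham G).id_le (2 * (m + N + 1))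
          simp only [id] at this
          omega
        · intro n h1 h2
          simp only [hh, h, if_false, mem_compl_iff, not_not]
          exact hev (2 * (m + N + 1)) (by simp) n (by omega) (by omega)

/-! ### The family -/

/-- The index set: a level `n` and a set of binary words of length `n`. -/
abbrev Idx : Type := Σ n : ℕ, ((Fin n → Bool) → Bool)

instance : Infinite Idx :=
  Infinite.of_injective (fun n : ℕ => (⟨n, fun _ => true⟩ : Idx)) (fun a b h => by
    exact (Sigma.mk.inj_iff.1 h).1)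

/-- an enumeration of the index set -/
noncomputable def en : ℕ ≃ Idx := (nonempty_denumerable Idx).some.eqv.symm

lemma finite_level (m : ℕ) : {i : ℕ | (en i).1 < m}.Finite := by
  have h : {p : Idx | p.1 < m}.Finite := by
    have : {p : Idx | p.1 < m} ⊆ ⋃ n ∈ Finset.range m, range (fun s => (⟨n, s⟩ : Idx)) := by
      rintro ⟨n, s⟩ hn
      simp only [mem_iUnion, Finset.mem_range]
      exact ⟨n, hn, s, rfl⟩
    refine Finite.subset ?_ this
    exact Finite.biUnion (Finset.finite_toSet _) (fun n _ => finite_range _)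
  exact h.preimage (en.injective.injOn)

/-- The set coded by `x` off the levels in `h`, and by `r` on the levels in `h`. -/
def code (x : Cantor) (h : Set ℕ) (r : Cantor) : Set ℕ :=
  {i | ((en i).1 ∈ h ∧ (en i).2 (fun t => r t) = true) ∨ ((en i).1 ∉ h ∧ x i = true)}

/-- **Main construction.** -/
theorem exists_family {X : Set Cantor} (hX : ¬ IsMeagre X) :
    ∃ A : Set (Set ℕ), IsIndependent A ∧ IsNonMeager A ∧ #A ≤ #X := by
  classical
  obtain ⟨H, hH1, hH2, hH3⟩ := exists_base hX
  have hr : Nonempty ((Cantor × Set ℕ) ↪ Cantor) := by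
    rw [← Cardinal.le_def]
    simp
  obtain ⟨r⟩ := hr
  have hXinf : Infinite X := (infinite_of_not_isMeagre hX).to_subtype
  let a : Cantor × Set ℕ → Set ℕ := fun p => code p.1 p.2 (r p)
  -- independence for finite sets of indices
  have key : ∀ P Q : Finset (Cantor × Set ℕ), (∀ p ∈ P, p.2 ∈ H) → (∀ p ∈ Q, p.2 ∈ H) →
      Disjoint P Q → {i : ℕ | (∀ p ∈ P, i ∈ a p) ∧ ∀ p ∈ Q, i ∉ a p}.Infinite := by
    intro P Q hP hQ hPQ
    have h1 := hH2 ((P ∪ Q).image Prod.snd) (by
      intro h hh
      obtain ⟨p, hp, rfl⟩ := Finset.mem_image.1 (Finset.mem_coe.1 hh)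
      rcases Finset.mem_union.1 hp with hp | hp
      · exact hP p hp
      · exact hQ p hp)
    -- a level which separates the codes
    have h2 : ∃ N, ∀ p ∈ P, ∀ q ∈ Q, ∃ t < N, r p t ≠ r q t := by
      have h3 : ∀ p : Cantor × Set ℕ, ∀ q : Cantor × Set ℕ, p ≠ q → ∃ t, r p t ≠ r q t := by
        intro p q hpq
        by_contra hcon
        push Not at hcon
        exact hpq (r.injective (funext hcon))
      have h4 : ∀ p q : Cantor × Set ℕ, ∃ t, p ≠ q → r p t ≠ r q t := by
        intro p q
        by_cases hpq : p = q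
        · exact ⟨0, fun h => absurd hpq h⟩
        · obtain ⟨t, ht⟩ := h3 p q hpq
          exact ⟨t, fun _ => ht⟩
      choose t ht using h4
      refine ⟨(∑ p ∈ P, ∑ q ∈ Q, t p q) + 1, fun p hp q hq => ⟨t p q, ?_, ht p q ?_⟩⟩
      · have h5 : t p q ≤ ∑ q ∈ Q, t p q :=
          Finset.single_le_sum (f := fun q => t p q) (fun _ _ => Nat.zero_le _) hq
        have h6 : (∑ q ∈ Q, t p q) ≤ ∑ p ∈ P, ∑ q ∈ Q, t p q :=
          Finset.single_le_sum (f := fun p => ∑ q ∈ Q, t p q) (fun _ _ => Nat.zero_le _) hp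
        omega
      · rintro rfl
        exact Finset.disjoint_left.1 hPQ hp hq
    obtain ⟨N, hN⟩ := h2
    have h5 : ({n | ∀ h ∈ (P ∪ Q).image Prod.snd, n ∈ h} \ {n | n < N}).Infinite :=
      h1.sdiff (finite_lt_nat N)
    let pt : ℕ → Idx := fun n => ⟨n, fun s => decide (∃ p ∈ P, s = fun t : Fin n => r p t)⟩
    have hpt : Function.Injective (fun n => en.symm (pt n)) := by
      intro n n' h
      have h' := en.symm.injective h
      exact (Sigma.mk.inj_iff.1 h').1
    refine (h5.image hpt.injOn).mono ?_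
    rintro _ ⟨n, ⟨hn1, hn2⟩, rfl⟩
    have hn3 : N ≤ n := not_lt.1 hn2
    have e1 : en (en.symm (pt n)) = pt n := en.apply_symm_apply _
    constructor
    · intro p hp
      have hmem : n ∈ p.2 := hn1 _ (Finset.mem_image_of_mem _ (Finset.mem_union_left _ hp))
      left
      rw [e1]
      refine ⟨hmem, ?_⟩
      show decide _ = true
      rw [decide_eq_true_iff]
      exact ⟨p, hp, rfl⟩
    · intro q hq hcon
      have hmem : n ∈ q.2 := hn1 _ (Finset.mem_image_of_mem _ (Finset.mem_union_right _ hq))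
      rcases hcon with ⟨_, h⟩ | ⟨h, _⟩
      · rw [e1] at h
        have h' : decide (∃ p ∈ P, (fun t : Fin n => r q t) = fun t : Fin n => r p t) = true := h
        rw [decide_eq_true_iff] at h'
        obtain ⟨p, hp, hpq⟩ := h'
        obtain ⟨t, ht, hne⟩ := hN p hp q hq
        exact hne (congrFun hpq ⟨t, by omega⟩).symm
      · rw [e1] at h
        exact h hmem
  let A : Set (Set ℕ) := a '' (X ×ˢ H)
  have hAle : #A ≤ #X := by
    refine mk_image_le.trans ?_
    rw [mk_setProd]
    refine (mul_le_mul' le_rfl hH1).trans ?_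
    rw [mul_eq_self (aleph0_le_mk X)]
  have hsel : ∀ F : Finset (Set ℕ), (F : Set (Set ℕ)) ⊆ A →
      ∃ P : Finset (Cantor × Set ℕ), P.image a = F ∧ ∀ p ∈ P, p.2 ∈ H := by
    intro F hF
    obtain ⟨P, hP, hPF⟩ := Finset.subset_set_image_iff.1 hF
    exact ⟨P, hPF, fun p hp => (hP hp).2⟩
  refine ⟨A, ⟨?_, ?_⟩, ?_, hAle⟩
  · rintro _ ⟨p, hp, rfl⟩
    have := key {p} ∅ (by simpa using hp.2) (by simp) (by simp)
    refine this.mono ?_
    intro i hi
    exact hi.1 p (by simp)
  · intro F G hF hG hFG _
    obtain ⟨P, rfl, hP⟩ := hsel F hF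
    obtain ⟨Q, rfl, hQ⟩ := hsel G hG
    have hPQ : Disjoint P Q := by
      rw [Finset.disjoint_left]
      intro p hp hq
      exact Finset.disjoint_left.1 hFG (Finset.mem_image_of_mem _ hp) (Finset.mem_image_of_mem _ hq)
    refine (key P Q hP hQ hPQ).mono ?_
    rintro i ⟨h1, h2⟩
    refine ⟨?_, ?_⟩
    · intro b hb
      obtain ⟨p, hp, rfl⟩ := Finset.mem_image.1 hb
      exact h1 p hp
    · intro b hb
      obtain ⟨p, hp, rfl⟩ := Finset.mem_image.1 hb
      exact h2 p hp
  · intro hmea
    obtain ⟨j, z, hj, hz⟩ := exists_chopped hmea (fun i => (en i).1) finite_level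
    obtain ⟨h, hh, hmiss⟩ := hH3 j hj
    have hfin : ∀ k, {i : ℕ | j k ≤ (en i).1 ∧ (en i).1 < j (k + 1)}.Finite :=
      fun k => (finite_level (j (k + 1))).subset (fun i hi => hi.2)
    have hres := residual_match (fun k => (hfin k).toFinset) (fun _ => z)
      (fun k => ∀ n, j k ≤ n → n < j (k + 1) → n ∉ h) (by
        intro E m
        obtain ⟨k, hk, hk2⟩ := hmiss (m + ∑ i ∈ E, (en i).1 + 1)
        refine ⟨k, by omega, hk2, ?_⟩
        rw [Finset.disjoint_left]
        intro i hi hiE
        simp only [Finite.mem_toFinset, mem_ofPred_eq] at hi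
        have h1 : (en i).1 ≤ ∑ i ∈ E, (en i).1 :=
          Finset.single_le_sum (f := fun i => (en i).1) (fun _ _ => Nat.zero_le _) hiE
        have h2 := hj.id_le k
        simp only [id] at h2
        omega)
    obtain ⟨x, hxX, hx⟩ := exists_mem_of_residual hX hres
    let y : Cantor := fun i => decide (i ∈ a (x, h))
    have hyA : y ∈ charSet A := by
      have : {n : ℕ | y n = true} = a (x, h) := by ext n; simp [y]
      show {n : ℕ | y n = true} ∈ A
      rw [this]
      exact mem_image_of_mem _ ⟨hxX, hh⟩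
    refine hz y ?_ hyA
    intro m
    obtain ⟨k, hk, hk2, hk3⟩ := hx m
    refine ⟨k, hk, ?_⟩
    intro i h1 h2
    have h3 : x i = z i := hk3 i (by simp only [Finite.mem_toFinset, mem_ofPred_eq]; exact ⟨h1, h2⟩)
    have h4 : (en i).1 ∉ h := hk2 _ h1 h2
    rw [← h3]
    have h5 : i ∈ a (x, h) ↔ x i = true := by
      show (((en i).1 ∈ h ∧ _) ∨ ((en i).1 ∉ h ∧ x i = true)) ↔ _
      simp [h4]
    by_cases h6 : x i = true
    · simp [y, h5, h6]
    · simp only [y, h5, h6]
      simp at h6
      simp

/-- The set of the characteristic functions has the cardinality of the family. -/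
lemma mk_charSet (A : Set (Set ℕ)) : #(charSet A) = #A := by
  classical
  refine mk_congr ?_
  have h0 : ∀ a : A, (fun n => decide (n ∈ a.1)) ∈ charSet A := by
    intro a
    show {n : ℕ | decide (n ∈ a.1) = true} ∈ A
    simp
  refine ⟨fun x => ⟨{n | x.1 n = true}, x.2⟩, fun a => ⟨fun n => decide (n ∈ a.1), h0 a⟩, ?_, ?_⟩
  · rintro ⟨x, hx⟩
    apply Subtype.ext
    funext n
    simp
  · rintro ⟨a, ha⟩
    apply Subtype.ext
    ext n
    simp

/-- **Theorem (ZFC).** `i(meager) = non(meager)`: there is a non-meager independent family of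
subsets of `ℕ` whose cardinality is the least cardinality of a non-meager subset of the Cantor
space. Both minima are attained. -/
theorem result :
    (∃ X : Set Cantor, ¬ IsMeagre X ∧ #X = nonMeager) ∧
    (∃ A : Set (Set ℕ), IsIndependent A ∧ IsNonMeager A ∧ #A = iMeager) ∧
    iMeager = nonMeager := by
  have hne : {κ | ∃ X : Set Cantor, ¬ IsMeagre X ∧ #X = κ}.Nonempty := by
    refine ⟨_, univ, ?_, rfl⟩
    exact not_isMeagre_of_mem_residual univ_mem
  have h1 : ∃ X : Set Cantor, ¬ IsMeagre X ∧ #X = nonMeager := csInf_mem hne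
  obtain ⟨X, hX, hXc⟩ := h1
  obtain ⟨A, hA1, hA2, hA3⟩ := exists_family hX
  have hne2 : {κ | ∃ A : Set (Set ℕ), IsIndependent A ∧ IsNonMeager A ∧ #A = κ}.Nonempty :=
    ⟨_, A, hA1, hA2, rfl⟩
  have h2 : ∃ A : Set (Set ℕ), IsIndependent A ∧ IsNonMeager A ∧ #A = iMeager := csInf_mem hne2
  refine ⟨⟨X, hX, hXc⟩, h2, le_antisymm ?_ ?_⟩
  · have h3 : #A ∈ {κ | ∃ A : Set (Set ℕ), IsIndependent A ∧ IsNonMeager A ∧ #A = κ} :=
      ⟨A, hA1, hA2, rfl⟩
    refine (csInf_le' h3).trans ?_
    rw [← hXc]
    exact hA3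
  · obtain ⟨B, _, hB2, hB3⟩ := h2
    rw [← hB3, ← mk_charSet]
    have h3 : #(charSet B) ∈ {κ | ∃ X : Set Cantor, ¬ IsMeagre X ∧ #X = κ} :=
      ⟨charSet B, hB2, rfl⟩
    exact csInf_le' h3

end Pool.Agent.Results.MP_fb02e9_lc.Equality
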